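import Pool.Agent.N728.QG.Def
import Pool.Agent.N199.QL.FIN

/-!
Project QG (helper728), part FINP: from the mean value theorem to the final theorem, primes
(after `Pool/Agent/N199/QL/FIN.lean`).
-/

set_option autoImplicit false

namespace Pool.Agent.N279.QG

open Finset Pool.Agent.N728.QG
open Pool.Agent.N728.QL (lp lz EE S_MER)
open Pool.Agent.N199.QL (fin_ineq hh hh_step hh_ge hh_le hh_up markov ev_pow ev_log ev_ge)

noncomputable section

/-! ### One polynomial -/

open Classical in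
/-- the indicator function of the primes -/
theorem lp_eq (n : ℤ) : lp n = (if n.toNat.Prime then (1 : ℝ) else 0) * Real.log n := by
  unfold Pool.Agent.N728.QL.lp
  split_ifs <;> simp

/-- the estimate for one polynomial -/
theorem ptg {F : ℕ → ℤ} {T J T1 : ℕ} (hJ : 1 ≤ J) (hTJ : T1 = T / J) {lam L cJ K K0 e E : ℝ}
    (hlam : 0 < lam) (hcJ0 : 0 ≤ cJ) (hcJ : 4 * cJ ≤ lam) (hLlow : lam / 2 ≤ L)
    (hlow : ∀ t : ℕ, 1 ≤ t → t ≤ T → lam / 2 ≤ Real.log (F t))
    (hup : ∀ t : ℕ, 1 ≤ t → t ≤ T → Real.log (F t) ≤ L)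
    (hmid : ∀ t : ℕ, T1 < t → t ≤ T → L - cJ ≤ Real.log (F t))
    (hK : 0 ≤ K) (hK0 : K ≤ K0) (hE : 0 ≤ E)
    (h1 : |∑ t ∈ Icc 1 T1, lp (F t) - 2 * K * T1| ≤ E)
    (h2 : |∑ t ∈ Icc 1 T, lp (F t) - 2 * K * T| ≤ E)
    (he : E ≤ e * T / 24) (he1 : e ≤ 1) (he0 : 0 < e) (hJK : 16 * K0 ≤ e * J)
    (hgl : 32 * (2 * K0 + 1) * cJ ≤ e * lam) :
    |(((Icc 1 T).filter (fun t : ℕ => (F t).toNat.Prime)).card : ℝ) -
      2 * K * ∑ t ∈ Icc 1 T, 1 / Real.log (F t)| ≤ e * T / lam := by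
  classical
  have hJ' : (1 : ℝ) ≤ J := by exact_mod_cast hJ
  have hLpos : 0 < L := by linarith
  have hLc : L / 2 ≤ L - cJ := by linarith
  have hLc0 : 0 < L - cJ := by linarith
  set P : ℕ → ℝ := fun t => if (F t).toNat.Prime then (1 : ℝ) else 0
    with hP
  have hP0 : ∀ t, 0 ≤ P t := by
    intro t
    rw [hP]
    simp only
    split_ifs <;> norm_num
  have hlp : ∀ t : ℕ, lp (F t) = P t * Real.log (F t) := fun t => by
    rw [lp_eq]
  have hT1T : T1 ≤ T := by
    rw [hTJ]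
    exact Nat.div_le_self T J
  have hsplit : ∀ f : ℕ → ℝ, ∑ t ∈ Icc 1 T, f t = ∑ t ∈ Icc 1 T1, f t +
      ∑ t ∈ Ioc T1 T, f t := by
    intro f
    rw [← Finset.sum_union]
    · congr 1
      ext t
      simp only [mem_union, mem_Icc, mem_Ioc]
      omega
    · rw [Finset.disjoint_left]
      intro t h3 h4
      rw [mem_Icc] at h3
      rw [mem_Ioc] at h4
      omega
  have hcount : (((Icc 1 T).filter (fun t : ℕ => (F t).toNat.Prime)).card : ℝ) =
      ∑ t ∈ Icc 1 T, P t := by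
    rw [Finset.card_filter]
    push_cast
    rfl
  rw [hcount, hsplit P, hsplit fun t => 1 / Real.log (F t)]
  rw [hsplit fun t => lp (F t)] at h2
  have hcard : ((Ioc T1 T).card : ℝ) = (T : ℝ) - T1 := by
    rw [Nat.card_Ioc, Nat.cast_sub hT1T]
  refine fin_ineq (lam := lam) (d := 1 / L) (D := 1 / (L - cJ)) (g := 8 * cJ / lam ^ 2) (K0 := K0)
    (E := E) (T := T) (T1 := (T1 : ℕ)) (J := J)
    (S1 := ∑ t ∈ Icc 1 T1, lp (F t))
    (S2 := ∑ t ∈ Ioc T1 T, lp (F t))
    hlam (by positivity) ?_ ?_ (by positivity) hK hK0 (Nat.cast_nonneg _) (Nat.cast_nonneg _)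
    (by exact_mod_cast hT1T) (by linarith) (by rw [hTJ]; exact Nat.cast_div_le) hE ?_ ?_ ?_ ?_ ?_ ?_ ?_ ?_ ?_ h1 h2 he
    he1 he0 hJK ?_
  · rw [div_le_div_iff₀ hLpos hlam]
    linarith
  · rw [div_add_div _ _ hLpos.ne' (by positivity), div_le_div_iff₀ hLc0 (by positivity)]
    have e1 : lam ^ 2 ≤ 4 * L ^ 2 := by nlinarith
    have e2 : lam ^ 2 * cJ ≤ 8 * cJ * (L * (L - cJ)) := by
      have e3 : L ^ 2 / 2 ≤ L * (L - cJ) := by nlinarith
      nlinarith
    nlinarith
  · refine Finset.sum_nonneg fun t ht => ?_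
    rw [mem_Ioc] at ht
    rw [hlp]
    have e1 := hlow t (by omega) ht.2
    exact mul_nonneg (hP0 t) (by linarith)
  · exact Finset.sum_nonneg fun t _ => hP0 t
  · rw [Finset.sum_mul]
    refine Finset.sum_le_sum fun t ht => ?_
    rw [mem_Icc] at ht
    rw [hlp, mul_assoc]
    have e1 := hlow t ht.1 (by omega)
    have e2 : 1 ≤ Real.log (F t) * (2 / lam) := by
      rw [mul_div_assoc', le_div_iff₀ hlam]
      linarith
    nlinarith [hP0 t]
  · refine Finset.sum_nonneg fun t ht => ?_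
    rw [mem_Icc] at ht
    have e1 := hlow t ht.1 (by omega)
    have : 0 < Real.log (F t) := by linarith
    positivity
  · calc ∑ t ∈ Icc 1 T1, 1 / Real.log (F t) ≤ ∑ _t ∈ Icc 1 T1, 2 / lam := by
          refine Finset.sum_le_sum fun t ht => ?_
          rw [mem_Icc] at ht
          have e1 := hlow t ht.1 (by omega)
          have e2 : 0 < Real.log (F t) := by linarith
          rw [div_le_div_iff₀ e2 hlam]
          linarith
      _ = (T1 : ℝ) * (2 / lam) := by
          rw [Finset.sum_const, Nat.card_Icc, nsmul_eq_mul]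
          simp
  · rw [Finset.sum_mul]
    refine Finset.sum_le_sum fun t ht => ?_
    rw [mem_Ioc] at ht
    rw [hlp, mul_assoc]
    have e1 := hup t (by omega) ht.2
    have e2 : Real.log (F t) * (1 / L) ≤ 1 := by
      rw [mul_one_div, div_le_one hLpos]
      exact e1
    nlinarith [hP0 t]
  · rw [Finset.sum_mul]
    refine Finset.sum_le_sum fun t ht => ?_
    rw [mem_Ioc] at ht
    rw [hlp, mul_assoc]
    have e1 := hmid t ht.1 ht.2
    have e2 : 1 ≤ Real.log (F t) * (1 / (L - cJ)) := by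
      rw [mul_one_div, le_div_iff₀ hLc0, one_mul]
      exact e1
    nlinarith [hP0 t]
  · rw [← hcard, ← nsmul_eq_mul, ← Finset.sum_const]
    refine Finset.sum_le_sum fun t ht => ?_
    rw [mem_Ioc] at ht
    have e1 := hup t (by omega) ht.2
    have e2 := hlow t (by omega) ht.2
    have e3 : 0 < Real.log (F t) := by linarith
    exact one_div_le_one_div_of_le e3 e1
  · rw [← hcard, ← nsmul_eq_mul, ← Finset.sum_const]
    refine Finset.sum_le_sum fun t ht => ?_
    rw [mem_Ioc] at ht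
    exact one_div_le_one_div_of_le hLc0 (hmid t ht.1 ht.2)
  · have e1 : 8 * cJ / lam ^ 2 * lam = 8 * cJ / lam := by field_simp
    rw [e1, mul_div_assoc', div_le_iff₀ hlam]
    linarith

/-! ### Polynomials -/

/-- a polynomial with positive leading coefficient is bounded below on the natural numbers -/
theorem poly_low {G : Polynomial ℤ} (hd : 1 ≤ G.natDegree) (hl : 0 < G.leadingCoeff) :
    ∃ C : ℕ, ∀ u : ℕ, -(C : ℤ) ≤ G.eval (u : ℤ) := by
  have hinj : Function.Injective (Int.castRingHom ℝ) := Int.cast_injective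
  have h1 : Filter.Tendsto (fun x : ℝ => (G.map (Int.castRingHom ℝ)).eval x) Filter.atTop
      Filter.atTop := by
    apply Polynomial.tendsto_atTop_of_leadingCoeff_nonneg
    · rw [Polynomial.degree_map_eq_of_injective hinj]
      exact Polynomial.natDegree_pos_iff_degree_pos.1 hd
    · rw [Polynomial.leadingCoeff_map_of_injective hinj]
      have : (0 : ℝ) < (G.leadingCoeff : ℝ) := by exact_mod_cast hl
      exact this.le
  have h2 : ∀ᶠ u : ℕ in Filter.atTop, (0 : ℝ) ≤ (G.map (Int.castRingHom ℝ)).eval (u : ℝ) :=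
    (h1.comp tendsto_natCast_atTop_atTop).eventually_ge_atTop 0
  obtain ⟨N, hN⟩ := Filter.eventually_atTop.1 h2
  refine ⟨∑ u ∈ range N, (G.eval (u : ℤ)).natAbs, fun u => ?_⟩
  by_cases hu : u < N
  · have h3 : (G.eval (u : ℤ)).natAbs ≤ ∑ u ∈ range N, (G.eval (u : ℤ)).natAbs :=
      Finset.single_le_sum (f := fun u : ℕ => (G.eval (u : ℤ)).natAbs)
        (fun _ _ => Nat.zero_le _) (mem_range.2 hu)
    omega
  · have h4 := hN u (not_lt.1 hu)
    have h5 : (G.map (Int.castRingHom ℝ)).eval (u : ℝ) = ((G.eval (u : ℤ) : ℤ) : ℝ) := by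
      have := Polynomial.eval_intCast_map (Int.castRingHom ℝ) G (u : ℤ)
      simp only [Int.cast_natCast, eq_intCast] at this
      exact this
    rw [h5] at h4
    have h6 : (0 : ℤ) ≤ G.eval (u : ℤ) := by exact_mod_cast h4
    omega

theorem poly_up (G : Polynomial ℤ) :
    ∃ C : ℕ, ∀ u : ℕ, 1 ≤ u → G.eval (u : ℤ) ≤ C * (u : ℤ) ^ G.natDegree := by
  refine ⟨∑ i ∈ range (G.natDegree + 1), (G.coeff i).natAbs, fun u hu => ?_⟩
  have hu1 : (1 : ℤ) ≤ u := by exact_mod_cast hu
  rw [Polynomial.eval_eq_sum_range]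
  push_cast
  rw [Finset.sum_mul]
  refine Finset.sum_le_sum fun i hi => ?_
  rw [mem_range] at hi
  have h1 : (u : ℤ) ^ i ≤ (u : ℤ) ^ G.natDegree := pow_le_pow_right₀ hu1 (by omega)
  have h2 : (0 : ℤ) ≤ (u : ℤ) ^ i := by positivity
  calc G.coeff i * (u : ℤ) ^ i ≤ |G.coeff i| * (u : ℤ) ^ i :=
        mul_le_mul_of_nonneg_right (le_abs_self _) h2
    _ ≤ |G.coeff i| * (u : ℤ) ^ G.natDegree := mul_le_mul_of_nonneg_left h1 (abs_nonneg _)

theorem Sg_nonneg (G : Polynomial ℤ) (b c : ℤ) (z : ℕ) : 0 ≤ Sg G b c z := by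
  unfold Sg
  refine Finset.prod_nonneg fun p hp => ?_
  have hp2 := (mem_filter.1 hp).2.two_le
  have hp0 : (2 : ℝ) ≤ p := by exact_mod_cast hp2
  have h1 : (om G b c p : ℝ) ≤ p := by
    have : om G b c p ≤ p := by
      unfold om
      exact (card_filter_le _ _).trans (by rw [card_range])
    exact_mod_cast this
  have h2 : (om G b c p : ℝ) / p ≤ 1 := by
    rw [div_le_one (by linarith)]
    exact h1
  have h3 : 1 / (p : ℝ) ≤ 1 := by
    rw [div_le_one (by linarith)]
    linarith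
  exact div_nonneg (by linarith) (by linarith)

/-! ### Dyadic intervals -/

theorem cover' (B b I : ℕ) (hb : b ≤ B) :
    b ≤ 2 * hh B (I + 1) ∨ ∃ i < I, 2 * hh B (i + 2) < b ∧ b ≤ 4 * hh B (i + 2) := by
  induction I with
  | zero =>
    have h1 : hh B 0 ≤ 2 * hh B (0 + 1) := hh_step B 0
    have h2 : hh B 0 = B := rfl
    left
    omega
  | succ I ih =>
    rcases ih with h | ⟨i, hi, h⟩
    · have h1 : hh B (I + 1) ≤ 2 * hh B (I + 1 + 1) := hh_step B (I + 1)
      by_cases h2 : b ≤ 2 * hh B (I + 1 + 1)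
      · exact Or.inl h2
      · refine Or.inr ⟨I, Nat.lt_succ_self I, ?_, ?_⟩
        · have h3 : I + 2 = I + 1 + 1 := rfl
          rw [h3]
          omega
        · have h3 : I + 2 = I + 1 + 1 := rfl
          rw [h3]
          omega
    · exact Or.inr ⟨i, by omega, h⟩

/-! ### The values -/

section vals

variable {G : Polynomial ℤ} {c : ℤ} {CG CU K B b T I J : ℕ}

/-- lower bound for the values -/
theorem val_low (hCG : ∀ u : ℕ, -(CG : ℤ) ≤ G.eval (u : ℤ))
    (hb : 8 * c.natAbs + 4 * CG + 16 ≤ b) {t : ℕ} (ht : 1 ≤ t) :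
    (t : ℝ) * b / 2 ≤ ((fp G b c t : ℤ) : ℝ) := by
  have h1 := hCG t
  have ht' : (1 : ℝ) ≤ t := by exact_mod_cast ht
  have h2 : -(CG : ℝ) ≤ ((G.eval (t : ℤ) : ℤ) : ℝ) := by exact_mod_cast h1
  have h3 : 8 * |(c : ℝ)| + 4 * (CG : ℝ) + 16 ≤ b := by
    have h4 : ((8 * c.natAbs + 4 * CG + 16 : ℕ) : ℝ) ≤ b := by exact_mod_cast hb
    push_cast at h4
    have h5 : ((c.natAbs : ℕ) : ℝ) = |(c : ℝ)| := by
      rw [Nat.cast_natAbs]
      push_cast
      rfl
    rw [h5] at h4
    exact h4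
  have h6 := neg_abs_le (c : ℝ)
  have h7 : ((fp G b c t : ℤ) : ℝ) = (t : ℝ) * (((G.eval (t : ℤ) : ℤ) : ℝ) + b) + c := by
    unfold fp
    push_cast
    ring
  rw [h7]
  have h8 : 0 ≤ |(c : ℝ)| := abs_nonneg _
  have h9 : (0 : ℝ) ≤ CG := Nat.cast_nonneg _
  have h10 : 3 / 4 * (b : ℝ) ≤ ((G.eval (t : ℤ) : ℤ) : ℝ) + b := by linarith
  have h11 : (t : ℝ) * (3 / 4 * b) ≤ t * (((G.eval (t : ℤ) : ℤ) : ℝ) + b) :=
    mul_le_mul_of_nonneg_left h10 (by linarith)
  have h12 : |(c : ℝ)| ≤ t * (b / 4) := by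
    have : |(c : ℝ)| ≤ 1 * (b / 4) := by linarith
    refine this.trans (mul_le_mul_of_nonneg_right ht' (by linarith))
  linarith

/-- upper bound for the values -/
theorem val_up (hCU : ∀ u : ℕ, 1 ≤ u → G.eval (u : ℤ) ≤ CU * (u : ℤ) ^ G.natDegree)
    (hT : T ^ G.natDegree ≤ K * B) (hbB : b ≤ B) (hcB : c.natAbs ≤ B) (hB : 1 ≤ B) {t : ℕ}
    (ht : 1 ≤ t) (htT : t ≤ T) :
    ((fp G b c t : ℤ) : ℝ) ≤ (T : ℝ) * B * (CU * K + 2) := by
  have h1 := hCU t ht
  have ht' : (1 : ℝ) ≤ t := by exact_mod_cast ht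
  have htT' : (t : ℝ) ≤ T := by exact_mod_cast htT
  have h2 : ((G.eval (t : ℤ) : ℤ) : ℝ) ≤ CU * (t : ℝ) ^ G.natDegree := by exact_mod_cast h1
  have h3 : (t : ℝ) ^ G.natDegree ≤ (K : ℝ) * B := by
    have h4 : (t : ℝ) ^ G.natDegree ≤ (T : ℝ) ^ G.natDegree := by gcongr
    have h5 : (T : ℝ) ^ G.natDegree ≤ (K : ℝ) * B := by exact_mod_cast hT
    linarith
  have h4 : (CU : ℝ) * (t : ℝ) ^ G.natDegree ≤ CU * (K * B) := by gcongr
  have h5 : ((c : ℤ) : ℝ) ≤ B := by
    have h6 : (c : ℤ) ≤ (B : ℤ) := by omega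
    exact_mod_cast h6
  have hbB' : (b : ℝ) ≤ B := by exact_mod_cast hbB
  have hB' : (1 : ℝ) ≤ B := by exact_mod_cast hB
  have h7 : ((fp G b c t : ℤ) : ℝ) = (t : ℝ) * (((G.eval (t : ℤ) : ℤ) : ℝ) + b) + c := by
    unfold fp
    push_cast
    ring
  rw [h7]
  have h8 : ((G.eval (t : ℤ) : ℤ) : ℝ) + b ≤ (CU * K + 1) * B := by nlinarith
  have h9 : (0 : ℝ) ≤ (CU * K + 1) * B := by positivity
  calc (t : ℝ) * (((G.eval (t : ℤ) : ℤ) : ℝ) + b) + c
      ≤ t * ((CU * K + 1) * B) + B := by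
        refine add_le_add (mul_le_mul_of_nonneg_left h8 (by linarith)) h5
    _ ≤ T * ((CU * K + 1) * B) + T * B := by
        refine add_le_add (mul_le_mul_of_nonneg_right htT' h9) ?_
        exact le_mul_of_one_le_left (by linarith) (by linarith)
    _ = (T : ℝ) * B * (CU * K + 2) := by ring

end vals

/-! ### The theorem -/

/-- (FINP) from the mean value theorem to the final theorem -/
theorem t_FINP (G : Polynomial ℤ) (c : ℤ) (hd : 2 ≤ G.natDegree) (hl : 0 < G.leadingCoeff)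
    (hc : c ≠ 0) (h1 : S_MCP G c) (h2 : Pool.Agent.N728.QG.S_LOC) (h3 : S_AVS) (h4 : S_TLS)
    (h5 : S_MER) : FinalP G c := by
  classical
  obtain ⟨C1, hMC⟩ := h1
  obtain ⟨CG, hCG⟩ := poly_low (by omega : 1 ≤ G.natDegree) hl
  obtain ⟨CU, hCU⟩ := poly_up G
  obtain ⟨CA, hCA, hAVS⟩ := h3 G c (by omega) hc
  intro ε K C2 hε
  obtain ⟨e, he⟩ : ∃ e, e = min ε 1 := ⟨_, rfl⟩
  have he0 : 0 < e := by rw [he]; exact lt_min hε one_pos
  have he1 : e ≤ 1 := by rw [he]; exact min_le_right _ _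
  have heε : e ≤ ε := by rw [he]; exact min_le_left _ _
  obtain ⟨K0, hK0⟩ : ∃ K0 : ℝ, K0 = 8 * CA / e := ⟨_, rfl⟩
  have hK0p : 0 < K0 := by rw [hK0]; positivity
  obtain ⟨KP, hKP⟩ : ∃ KP : ℝ, KP = (K0 + 1) / 2 := ⟨_, rfl⟩
  have hKPp : 0 < KP := by rw [hKP]; positivity
  obtain ⟨J, hJ1, hJK⟩ : ∃ J : ℕ, 1 ≤ J ∧ 16 * KP ≤ e * J := by
    obtain ⟨n, hn⟩ := exists_nat_ge (16 * KP / e)
    refine ⟨n + 1, by omega, ?_⟩
    rw [div_le_iff₀ he0] at hn
    push_cast
    nlinarith
  obtain ⟨I, hI⟩ : ∃ I : ℕ, 8 / e ≤ (2 : ℝ) ^ I :=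
    pow_unbounded_of_one_lt (8 / e) (by norm_num : (1 : ℝ) < 2) |>.imp fun n hn => hn.le
  obtain ⟨δ, hδ⟩ : ∃ δ, δ = e / 100 := ⟨_, rfl⟩
  have hδ0 : 0 < δ := by rw [hδ]; positivity
  obtain ⟨K', hK'⟩ : ∃ K' : ℕ, K' = K * 2 ^ (I + 1) * (3 * CU + 1) + 15 := ⟨_, rfl⟩
  obtain ⟨z1, hz1⟩ := hMC K' (δ * (e / (8 * (I + 1)))) (by omega) (by positivity)
  obtain ⟨z2, hz2⟩ := h4 G c (by omega) hc δ hδ0
  obtain ⟨z, hz⟩ : ∃ z, z = max z1 z2 := ⟨_, rfl⟩
  obtain ⟨B1, hB1⟩ := hz1 z (by rw [hz]; exact le_max_left _ _) (C2 + 1)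
  obtain ⟨B2, hB2⟩ := hAVS z
  obtain ⟨Cz, hCz, hloc⟩ := h2 G c z
  refine ⟨z, fun A => ?_⟩
  obtain ⟨B3, hB3⟩ := hz2 z (by rw [hz]; exact le_max_right _ _) A
  have hJ' : (1 : ℝ) ≤ J := by exact_mod_cast hJ1
  obtain ⟨Rt, hRt⟩ : ∃ Rt : ℝ, Rt = (CU * K + 2) * (2 * J * 2 ^ I) := ⟨_, rfl⟩
  have hRt1 : 1 ≤ Rt := by
    rw [hRt]
    have e1 : (1 : ℝ) ≤ CU * K + 2 := by
      have : (0 : ℝ) ≤ CU * K := by positivity
      linarith
    have e2 : (1 : ℝ) ≤ 2 ^ I := one_le_pow₀ (by norm_num)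
    have e3 : (1 : ℝ) ≤ 2 * J * 2 ^ I := by nlinarith
    nlinarith
  obtain ⟨cJ, hcJ⟩ : ∃ cJ : ℝ, cJ = Real.log Rt := ⟨_, rfl⟩
  have hcJ0 : 0 ≤ cJ := by rw [hcJ]; exact Real.log_nonneg hRt1
  have hdne : G.natDegree ≠ 0 := by omega
  -- large `B`
  have hev : ∀ᶠ B : ℕ in Filter.atTop, ∀ T Z : ℕ,
      (B : ℝ) ≤ (T : ℝ) ^ G.natDegree * Real.log B ^ C2 → T ^ G.natDegree ≤ K * B →
      z ≤ Z → (Z : ℝ) ≤ Real.log B ^ A →
      (((Icc 1 B).filter (fun b : ℕ => ¬ |(cnt G b c T : ℝ) -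
        Sg G b c Z * ∑ t ∈ (Icc 1 T).filter (fun t => 2 ≤ fp G b c t),
          1 / Real.log ((fp G b c t : ℤ) : ℝ)| ≤
        ε * (T / Real.log T))).card : ℝ) ≤ ε * B := by
    filter_upwards [Filter.eventually_ge_atTop 1, Filter.eventually_ge_atTop B2,
      Filter.eventually_ge_atTop B3,
      Filter.eventually_ge_atTop (2 ^ (I + 1) * B1),
      Filter.eventually_ge_atTop (2 ^ (I + 1) * (8 * c.natAbs + 4 * CG + 16)),
      ev_ge (16 / e), ev_log 1,
      ev_log (2 * (I + 1) * Real.log 2), ev_log ((2 * J) ^ G.natDegree * 2 ^ (C2 + 1)),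
      ev_log (4 * cJ), ev_log (32 * (2 * KP + 1) * cJ / e),
      ev_pow ((2 * J + 2) ^ G.natDegree) C2, ev_pow ((Cz / δ) ^ G.natDegree) C2,
      ev_pow (K * 4 ^ (I + 1)) (2 * C1)] with B g1 g2 g2' g3 g4 g5 g6 g8 g9 g10 g11 g12 g13 g14
    intro T Z hT hT' hzZ hZA
    obtain ⟨lam, hlam⟩ : ∃ lam, lam = Real.log (B : ℝ) := ⟨_, rfl⟩
    have hTLS := hB3 B g2' Z hzZ hZA
    rw [← hlam] at g6 g8 g9 g10 g11 g12 g13 g14 hT
    have hlam0 : 0 < lam := by linarith
    have hBR : (1 : ℝ) ≤ B := by exact_mod_cast g1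
    have hB0 : (0 : ℝ) < B := by linarith
    have hp2 : 0 < lam ^ C2 := by positivity
    have hbig : ∀ M : ℝ, 0 ≤ M → M ^ G.natDegree * lam ^ C2 ≤ B → M ≤ T := by
      intro M hM hle
      have e1 := le_of_mul_le_mul_right (hle.trans hT) hp2
      exact (pow_le_pow_iff_left₀ hM (Nat.cast_nonneg T) hdne).1 e1
    have hTJ : (2 * (J : ℝ) + 2) ≤ T := hbig _ (by positivity) g12
    have hTC : Cz / δ ≤ T := hbig _ (by positivity) g13
    have hTC' : Cz ≤ δ * T := by
      rw [div_le_iff₀ hδ0] at hTC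
      linarith
    have hT0 : (0 : ℝ) < T := by linarith
    have hT1 : 1 ≤ T := by
      have : (1 : ℝ) ≤ T := by linarith
      exact_mod_cast this
    have hT1r : (1 : ℝ) ≤ T := by exact_mod_cast hT1
    have hTKB : (T : ℝ) ^ G.natDegree ≤ K * B := by exact_mod_cast hT'
    have hTsq : (T : ℝ) ^ 2 ≤ K * B := (pow_le_pow_right₀ hT1r hd).trans hTKB
    have hTL : (T : ℝ) * lam ^ C1 * 2 ^ (I + 1) ≤ B := by
      rw [← pow_le_pow_iff_left₀ (n := 2) (by positivity) (by positivity) (by norm_num)]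
      calc ((T : ℝ) * lam ^ C1 * 2 ^ (I + 1)) ^ 2
          = (T : ℝ) ^ 2 * (lam ^ (2 * C1) * 4 ^ (I + 1)) := by
            have e1 : (4 : ℝ) ^ (I + 1) = (2 ^ (I + 1)) ^ 2 := by
              rw [← pow_mul, mul_comm, pow_mul]
              norm_num
            rw [e1, pow_mul']
            ring
        _ ≤ (K * B) * (lam ^ (2 * C1) * 4 ^ (I + 1)) := by gcongr
        _ = (K * 4 ^ (I + 1) * lam ^ (2 * C1)) * B := by ring
        _ ≤ B * B := by gcongr
        _ = (B : ℝ) ^ 2 := by ring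
    have hTB : (T : ℝ) ≤ B := by
      refine le_trans ?_ hTL
      have e1 : 1 ≤ lam ^ C1 := one_le_pow₀ g6
      have e2 : (1 : ℝ) ≤ 2 ^ (I + 1) := one_le_pow₀ (by norm_num)
      rw [mul_assoc]
      exact le_mul_of_one_le_right hT0.le (by nlinarith)
    obtain ⟨T1, hT1d⟩ : ∃ T1, T1 = T / J := ⟨_, rfl⟩
    have hT1T : T1 ≤ T := by rw [hT1d]; exact Nat.div_le_self _ _
    have hT1T' : (T1 : ℝ) ≤ T := by exact_mod_cast hT1T
    have hT1J : (T : ℝ) ≤ 2 * J * T1 := by
      have e1 := Nat.div_add_mod T J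
      have e2 := Nat.mod_lt T (by omega : J > 0)
      rw [← hT1d] at e1
      have e3 : (T : ℝ) < J * T1 + J := by
        have : T < J * T1 + J := by omega
        exact_mod_cast this
      linarith
    -- the exceptional sets
    obtain ⟨M, hM⟩ : ∃ M : ℕ → ℕ → Finset ℕ, M = fun (i τ : ℕ) =>
      (Ioc (2 * hh B (i + 2)) (4 * hh B (i + 2))).filter fun b : ℕ =>
        δ * T < |∑ t ∈ Icc 1 τ, EE z (fp G b c t)| := ⟨_, rfl⟩
    have hMcard : ∀ i < I, ∀ τ : ℕ, (T : ℝ) ≤ 2 * J * τ → τ ≤ T →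
        ((M i τ).card : ℝ) ≤ e / (8 * (I + 1)) * B := by
      intro i hi τ hτ1 hτ2
      have k1 := hh_ge B (i + 2)
      have k2 := hh_le g1 (i + 2)
      have k3 : B ≤ 2 ^ (I + 1) * hh B (i + 2) :=
        k1.trans (Nat.mul_le_mul_right _ (Nat.pow_le_pow_right (by norm_num) (by omega)))
      have k4 : B1 ≤ hh B (i + 2) := by
        have := g3.trans k3
        exact Nat.le_of_mul_le_mul_left this (by positivity)
      have k5 : 8 * c.natAbs + 4 * CG + 16 ≤ hh B (i + 2) := by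
        have := g4.trans k3
        exact Nat.le_of_mul_le_mul_left this (by positivity)
      obtain ⟨B', hB'd⟩ : ∃ B', B' = hh B (i + 2) := ⟨_, rfl⟩
      rw [← hB'd] at k1 k2 k3 k4 k5
      have hB'0 : (1 : ℝ) ≤ B' := by exact_mod_cast k2.1
      have hB'B : (B' : ℝ) ≤ B := by exact_mod_cast k2.2
      have k3' : (B : ℝ) ≤ 2 ^ (I + 1) * B' := by exact_mod_cast k3
      have hl1 : Real.log B' ≤ lam := by
        rw [hlam]
        exact Real.log_le_log (by linarith) hB'B
      have hl0 : 0 ≤ Real.log B' := Real.log_nonneg hB'0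
      have hl2 : lam / 2 ≤ Real.log B' := by
        have e1 : lam ≤ (I + 1 : ℕ) * Real.log 2 + Real.log B' := by
          rw [hlam, ← Real.log_pow, ← Real.log_mul (by positivity) (by linarith)]
          exact Real.log_le_log hB0 k3'
        push_cast at e1
        linarith
      have hτT : (τ : ℝ) ≤ T := by exact_mod_cast hτ2
      have hτ0 : (0 : ℝ) ≤ τ := Nat.cast_nonneg τ
      have c1 : (B' : ℝ) ≤ (τ : ℝ) ^ G.natDegree * Real.log B' ^ (C2 + 1) := by
        calc (B' : ℝ) ≤ B := hB'B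
          _ ≤ (T : ℝ) ^ G.natDegree * lam ^ C2 := hT
          _ ≤ (2 * J * τ) ^ G.natDegree * lam ^ C2 := by gcongr
          _ = (τ : ℝ) ^ G.natDegree *
              (((2 * J) ^ G.natDegree * 2 ^ (C2 + 1)) * lam ^ C2 / 2 ^ (C2 + 1)) := by
              rw [mul_pow (2 * (J : ℝ))]
              field_simp
          _ ≤ (τ : ℝ) ^ G.natDegree * (lam * lam ^ C2 / 2 ^ (C2 + 1)) := by gcongr
          _ = (τ : ℝ) ^ G.natDegree * (lam / 2) ^ (C2 + 1) := by
              rw [div_pow, pow_succ' lam]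
          _ ≤ (τ : ℝ) ^ G.natDegree * Real.log B' ^ (C2 + 1) := by gcongr
      have c2 : τ ^ G.natDegree ≤ K' * B' := by
        calc τ ^ G.natDegree ≤ T ^ G.natDegree := Nat.pow_le_pow_left hτ2 _
          _ ≤ K * B := hT'
          _ ≤ K * (2 ^ (I + 1) * B') := Nat.mul_le_mul_left _ k3
          _ = (K * 2 ^ (I + 1)) * B' := by ring
          _ ≤ K' * B' := by
              refine Nat.mul_le_mul_right _ ?_
              rw [hK']
              nlinarith [Nat.zero_le (K * 2 ^ (I + 1) * (3 * CU))]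
      have c3 : (τ : ℝ) * Real.log B' ^ C1 ≤ B' := by
        have e1 : (τ : ℝ) * Real.log B' ^ C1 ≤ T * lam ^ C1 := by gcongr
        have e2 : (2 : ℝ) ^ (I + 1) * (T * lam ^ C1) ≤ 2 ^ (I + 1) * B' := by
          calc (2 : ℝ) ^ (I + 1) * (T * lam ^ C1) = T * lam ^ C1 * 2 ^ (I + 1) := by ring
            _ ≤ B := hTL
            _ ≤ 2 ^ (I + 1) * B' := k3'
        exact e1.trans (le_of_mul_le_mul_left e2 (by positivity))
      have c4 : Rge G K' B' τ := by
        intro u hu1 huτ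
        constructor
        · have e1 := hCG u
          omega
        · have e1 := hCU u hu1
          have e2 : (u : ℤ) ^ G.natDegree ≤ (K * 2 ^ (I + 1) * B' : ℕ) := by
            have e3 : u ^ G.natDegree ≤ K * 2 ^ (I + 1) * B' := by
              calc u ^ G.natDegree ≤ T ^ G.natDegree :=
                    Nat.pow_le_pow_left (huτ.trans hτ2) _
                _ ≤ K * B := hT'
                _ ≤ K * (2 ^ (I + 1) * B') := Nat.mul_le_mul_left _ k3
                _ = K * 2 ^ (I + 1) * B' := by ring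
            exact_mod_cast e3
          have e4 : (CU : ℤ) * (u : ℤ) ^ G.natDegree ≤ CU * (K * 2 ^ (I + 1) * B' : ℕ) :=
            mul_le_mul_of_nonneg_left e2 (by positivity)
          rw [hK']
          push_cast at e4 ⊢
          have e5 : (0 : ℤ) ≤ (K : ℤ) * 2 ^ (I + 1) * B' := by positivity
          nlinarith
      have key := hB1 B' k4 τ c1 c2 c3 c4
      rw [hM]
      simp only
      rw [← hB'd]
      refine markov _ (fun b : ℕ => |∑ t ∈ Icc 1 τ, EE z (fp G b c t)|)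
        (fun b => abs_nonneg _) (by positivity) ?_
      refine key.trans ?_
      have e3 : (B' : ℝ) * τ ≤ B * T := by gcongr
      calc δ * (e / (8 * (I + 1))) * (B' * τ) ≤ δ * (e / (8 * (I + 1))) * (B * T) := by gcongr
        _ = e / (8 * (I + 1)) * B * (δ * T) := by ring
    obtain ⟨E2, hE2⟩ : ∃ E2 : Finset ℕ, E2 = (Icc 1 B).filter fun b : ℕ => K0 < Sg G b c z :=
      ⟨_, rfl⟩
    obtain ⟨E3, hE3⟩ : ∃ E3 : Finset ℕ, E3 = (Icc 1 B).filter fun b : ℕ =>
        δ < |Sg G b c Z - Sg G b c z| := ⟨_, rfl⟩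
    -- the inclusion
    have hsub : (Icc 1 B).filter (fun b : ℕ => ¬ |(cnt G b c T : ℝ) -
        Sg G b c Z * ∑ t ∈ (Icc 1 T).filter (fun t => 2 ≤ fp G b c t),
          1 / Real.log ((fp G b c t : ℤ) : ℝ)| ≤ ε * (T / Real.log T)) ⊆
        (Icc 1 (2 * hh B (I + 1)) ∪ (E2 ∪ E3)) ∪
        (range I).biUnion fun i => M i T ∪ M i T1 := by
      intro b hb
      rw [mem_filter, mem_Icc] at hb
      obtain ⟨⟨hb1, hbB⟩, hno⟩ := hb
      by_contra hcon
      rw [mem_union, mem_union, mem_union, not_or, not_or, not_or] at hcon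
      obtain ⟨⟨n1, n2, n2'⟩, n3⟩ := hcon
      apply hno
      have n1' : 2 * hh B (I + 1) < b := by
        by_contra h
        exact n1 (mem_Icc.2 ⟨hb1, not_lt.1 h⟩)
      have m2 : Sg G b c z ≤ K0 := by
        by_contra h
        apply n2
        rw [hE2]
        exact mem_filter.2 ⟨mem_Icc.2 ⟨hb1, hbB⟩, not_le.1 h⟩
      have m3 : |Sg G b c Z - Sg G b c z| ≤ δ := by
        by_contra h
        apply n2'
        rw [hE3]
        exact mem_filter.2 ⟨mem_Icc.2 ⟨hb1, hbB⟩, not_le.1 h⟩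
      rcases cover' B b I hbB with h | ⟨i, hi, hi1, hi2⟩
      · omega
      have n3' : ∀ τ, τ = T ∨ τ = T1 →
          |∑ t ∈ Icc 1 τ, EE z (fp G b c t)| ≤ δ * T := by
        intro τ hτ
        by_contra h
        push Not at h
        apply n3
        rw [mem_biUnion]
        refine ⟨i, mem_range.2 hi, ?_⟩
        rw [mem_union]
        have hmem : b ∈ M i τ := by
          rw [hM]
          exact mem_filter.2 ⟨mem_Ioc.2 ⟨hi1, hi2⟩, h⟩
        rcases hτ with rfl | rfl
        · exact Or.inl hmem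
        · exact Or.inr hmem
      have hS : ∀ τ, τ = T ∨ τ = T1 →
          |∑ t ∈ Icc 1 τ, lp (fp G b c t) - 2 * (Sg G b c Z / 2) * τ| ≤
            3 * δ * T := by
        intro τ hτ
        have hτT : (τ : ℝ) ≤ T := by
          rcases hτ with rfl | rfl
          · exact le_rfl
          · exact hT1T'
        have e1 := n3' τ hτ
        have e2 := hloc b 0 τ (Nat.zero_le _)
        have e3 : (Ioc 0 τ) = Icc 1 τ := by
          ext t
          simp only [mem_Ioc, mem_Icc]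
          omega
        rw [e3, Nat.cast_zero, sub_zero] at e2
        have e4 : ∑ t ∈ Icc 1 τ, lp (fp G b c t) =
            ∑ t ∈ Icc 1 τ, EE z (fp G b c t) +
              ∑ t ∈ Icc 1 τ, lz z (fp G b c t) := by
          rw [← Finset.sum_add_distrib]
          refine Finset.sum_congr rfl fun t _ => ?_
          unfold Pool.Agent.N728.QL.EE
          ring
        have e5 : |(τ : ℝ) * Sg G b c z - 2 * (Sg G b c Z / 2) * τ| ≤ δ * T := by
          have : (τ : ℝ) * Sg G b c z - 2 * (Sg G b c Z / 2) * τ =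
            -(τ * (Sg G b c Z - Sg G b c z)) := by ring
          rw [this, abs_neg, abs_mul, abs_of_nonneg (Nat.cast_nonneg τ), mul_comm δ]
          gcongr
        rw [e4]
        rw [abs_le] at *
        constructor <;> linarith [e1.1, e1.2, e2.1, e2.2, e5.1, e5.2]
      have hhI : B ≤ 2 ^ (I + 1) * hh B (I + 1) := hh_ge B (I + 1)
      have hbig2 : 8 * c.natAbs + 4 * CG + 16 ≤ hh B (I + 1) := by
        have := g4.trans hhI
        exact Nat.le_of_mul_le_mul_left this (by positivity)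
      have hbb : 8 * c.natAbs + 4 * CG + 16 ≤ b := by omega
      have hbR : (B : ℝ) ≤ 2 ^ I * b := by
        have e1 : B ≤ 2 ^ I * b := by
          calc B ≤ 2 ^ (I + 1) * hh B (I + 1) := hhI
            _ = 2 ^ I * (2 * hh B (I + 1)) := by ring
            _ ≤ 2 ^ I * b := Nat.mul_le_mul_left _ n1'.le
        exact_mod_cast e1
      have hb0 : (1 : ℝ) ≤ b := by exact_mod_cast hb1
      have hcB : c.natAbs ≤ B := by omega
      have hlowv : ∀ t : ℕ, 1 ≤ t → (t : ℝ) * b / 2 ≤ ((fp G b c t : ℤ) : ℝ) :=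
        fun t ht => val_low hCG hbb ht
      have hupv : ∀ t : ℕ, 1 ≤ t → t ≤ T →
          ((fp G b c t : ℤ) : ℝ) ≤ (T : ℝ) * B * (CU * K + 2) :=
        fun t ht htT => val_up hCU hT' hbB hcB g1 ht htT
      have hlowb : ∀ t : ℕ, 1 ≤ t → (b : ℝ) / 2 ≤ ((fp G b c t : ℤ) : ℝ) := by
        intro t ht
        refine le_trans ?_ (hlowv t ht)
        have ht' : (1 : ℝ) ≤ t := by exact_mod_cast ht
        nlinarith
      have hposv : ∀ t : ℕ, 1 ≤ t → 0 < ((fp G b c t : ℤ) : ℝ) := fun t ht =>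
        lt_of_lt_of_le (by linarith) (hlowb t ht)
      have hl : lam / 2 ≤ Real.log ((b : ℝ) / 2) := by
        have e1 : lam ≤ (I + 1 : ℕ) * Real.log 2 + Real.log ((b : ℝ) / 2) := by
          rw [hlam, ← Real.log_pow, ← Real.log_mul (by positivity) (by positivity)]
          refine Real.log_le_log hB0 (hbR.trans (le_of_eq ?_))
          rw [pow_succ]
          ring
        push_cast at e1
        linarith
      have hlow' : ∀ t : ℕ, 1 ≤ t → t ≤ T → lam / 2 ≤ Real.log (fp G b c t) := fun t ht _ =>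
        hl.trans (Real.log_le_log (by linarith) (hlowb t ht))
      have hup' : ∀ t : ℕ, 1 ≤ t → t ≤ T → Real.log (fp G b c t) ≤
          Real.log ((T : ℝ) * B * (CU * K + 2)) := fun t ht htT =>
        Real.log_le_log (hposv t ht) (hupv t ht htT)
      have hmid' : ∀ t : ℕ, T1 < t → t ≤ T →
          Real.log ((T : ℝ) * B * (CU * K + 2)) - cJ ≤ Real.log (fp G b c t) := by
        intro t ht _
        have ht1 : 1 ≤ t := by omega
        have h3' : T ≤ t * J := by
          rw [hT1d] at ht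
          exact ((Nat.div_lt_iff_lt_mul (by omega)).1 ht).le
        have h3 : (T : ℝ) ≤ t * J := by exact_mod_cast h3'
        have h4 : (T : ℝ) * B * (CU * K + 2) ≤ Rt * ((fp G b c t : ℤ) : ℝ) := by
          calc (T : ℝ) * B * (CU * K + 2) ≤ (t * J) * (2 ^ I * b) * (CU * K + 2) := by gcongr
            _ = Rt * ((t : ℝ) * b / 2) := by rw [hRt]; ring
            _ ≤ Rt * ((fp G b c t : ℤ) : ℝ) := by
                have := hlowv t ht1
                gcongr
        have h5 := Real.log_le_log (by positivity) h4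
        rw [Real.log_mul (by positivity) (hposv t ht1).ne', ← hcJ] at h5
        linarith
      have hLlow : lam / 2 ≤ Real.log ((T : ℝ) * B * (CU * K + 2)) :=
        (hlow' T hT1 le_rfl).trans (hup' T hT1 le_rfl)
      have hKb0 : 0 ≤ Sg G b c Z / 2 := by
        have := Sg_nonneg G b c Z
        linarith
      have hKb1 : Sg G b c Z / 2 ≤ KP := by
        rw [hKP]
        have e1 := (abs_le.1 m3).2
        have e2 : δ ≤ 1 := by rw [hδ]; linarith
        linarith
      have hfin := ptg (F := fun t => fp G b c t) hJ1 hT1d hlam0 hcJ0 g10 hLlow hlow' hup' hmid'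
        hKb0 hKb1 (E := 3 * δ * T) (e := e) (by positivity) (hS T1 (Or.inr rfl))
        (hS T (Or.inl rfl)) (by rw [hδ]; nlinarith) he1 he0 hJK (by
          rw [div_le_iff₀ he0] at g11
          linarith)
      have hfilter : (Icc 1 T).filter (fun t => 2 ≤ fp G b c t) = Icc 1 T := by
        apply Finset.filter_true_of_mem
        intro t ht
        rw [mem_Icc] at ht
        have e1 := hlowb t ht.1
        have e2 : (16 : ℝ) ≤ b := by
          have : 16 ≤ b := by omega
          exact_mod_cast this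
        have e3 : (2 : ℝ) ≤ ((fp G b c t : ℤ) : ℝ) := by linarith
        exact_mod_cast e3
      rw [hfilter]
      have hcnt : (cnt G b c T : ℝ) =
          (((Icc 1 T).filter (fun t : ℕ => (fp G b c t).toNat.Prime)).card : ℝ) := by
        unfold cnt
        rfl
      have h2K : 2 * (Sg G b c Z / 2) = Sg G b c Z := by ring
      rw [h2K] at hfin
      rw [hcnt]
      refine hfin.trans ?_
      have hlogT : Real.log T ≤ lam := by
        rw [hlam]
        exact Real.log_le_log hT0 hTB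
      have hlogT0 : 0 < Real.log T := Real.log_pos (by linarith)
      calc e * T / lam ≤ ε * T / lam := by gcongr
        _ ≤ ε * T / Real.log T := by gcongr
        _ = ε * (T / Real.log T) := by ring
    have hcard := Finset.card_le_card hsub
    have c1 : (((Icc 1 (2 * hh B (I + 1)) ∪ (E2 ∪ E3)) ∪
        (range I).biUnion fun i => M i T ∪ M i T1).card : ℝ) ≤ e * B := by
      have d1 : (((range I).biUnion fun i => M i T ∪ M i T1).card : ℝ) ≤
          ∑ i ∈ range I, (((M i T).card : ℝ) + ((M i T1).card : ℝ)) := by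
        have : ((range I).biUnion fun i => M i T ∪ M i T1).card ≤
            ∑ i ∈ range I, ((M i T).card + (M i T1).card) :=
          Finset.card_biUnion_le.trans (Finset.sum_le_sum fun i _ => Finset.card_union_le _ _)
        exact_mod_cast this
      have d2 : ∑ i ∈ range I, (((M i T).card : ℝ) + ((M i T1).card : ℝ)) ≤ e / 4 * B := by
        calc ∑ i ∈ range I, (((M i T).card : ℝ) + ((M i T1).card : ℝ))
            ≤ ∑ _i ∈ range I, (e / (8 * (I + 1)) * B + e / (8 * (I + 1)) * B) := by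
              refine Finset.sum_le_sum fun i hi => ?_
              rw [mem_range] at hi
              refine add_le_add (hMcard i hi T ?_ le_rfl) (hMcard i hi T1 hT1J hT1T)
              nlinarith
          _ = (I / (I + 1)) * (e / 4 * B) := by
              rw [Finset.sum_const, card_range, nsmul_eq_mul]
              field_simp
              ring
          _ ≤ 1 * (e / 4 * B) := by
              gcongr
              rw [div_le_one (by positivity)]
              linarith
          _ = e / 4 * B := one_mul _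
      have d3 : (((Icc 1 (2 * hh B (I + 1))).card : ℕ) : ℝ) ≤ e / 4 * B := by
        rw [Nat.card_Icc]
        have e1 := hh_up B (I + 1)
        have e2 : (B : ℝ) / 2 ^ I ≤ e / 8 * B := by
          rw [div_le_iff₀ (by positivity)]
          rw [div_le_iff₀ he0] at hI
          nlinarith
        rw [div_le_iff₀ he0] at g5
        have e3 : ((2 * hh B (I + 1) + 1 - 1 : ℕ) : ℝ) = 2 * hh B (I + 1) := by simp
        rw [e3]
        have e4 : (B : ℝ) / 2 ^ (I + 1) = B / 2 ^ I / 2 := by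
          rw [pow_succ, div_div]
        rw [e4] at e1
        linarith
      have d4 : (E2.card : ℝ) ≤ e / 8 * B := by
        rw [hE2]
        refine markov (Icc 1 B) (fun b : ℕ => Sg G b c z) (fun b => Sg_nonneg G b c z) hK0p ?_
        refine (hB2 B g2).trans (le_of_eq ?_)
        rw [hK0]
        field_simp
      have d4' : (E3.card : ℝ) ≤ e / 8 * B := by
        rw [hE3]
        refine hTLS.trans ?_
        have : δ ≤ e / 8 := by rw [hδ]; linarith
        gcongr
      have d5 := Finset.card_union_le (Icc 1 (2 * hh B (I + 1)) ∪ (E2 ∪ E3))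
        ((range I).biUnion fun i => M i T ∪ M i T1)
      have d6 := Finset.card_union_le (Icc 1 (2 * hh B (I + 1))) (E2 ∪ E3)
      have d6' := Finset.card_union_le E2 E3
      have d5' : (((Icc 1 (2 * hh B (I + 1)) ∪ (E2 ∪ E3)) ∪
        (range I).biUnion fun i => M i T ∪ M i T1).card : ℝ) ≤
        ((Icc 1 (2 * hh B (I + 1))).card : ℝ) + (E2.card : ℝ) + (E3.card : ℝ) +
        (((range I).biUnion fun i => M i T ∪ M i T1).card : ℝ) := by
        have : ((Icc 1 (2 * hh B (I + 1)) ∪ (E2 ∪ E3)) ∪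
          (range I).biUnion fun i => M i T ∪ M i T1).card ≤
          (Icc 1 (2 * hh B (I + 1))).card + E2.card + E3.card +
          ((range I).biUnion fun i => M i T ∪ M i T1).card := by omega
        exact_mod_cast this
      have d7 : 0 ≤ e * B := by positivity
      linarith
    calc (((Icc 1 B).filter _).card : ℝ) ≤ _ := by exact_mod_cast hcard
      _ ≤ e * B := c1
      _ ≤ ε * B := by gcongr
  obtain ⟨B0, hB0⟩ := Filter.eventually_atTop.1 hev
  refine ⟨B0, fun B hB T Z hT hT' hzZ hZA => ?_⟩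
  have := hB0 B hB T Z hT hT' hzZ hZA
  convert this

end

end Pool.Agent.N279.QG
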